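import Pool.Agent.SymShift.Transfer

/-!
# MP_0b6044_an: the spectrum if the sum of the exponents is not zero

If the sum of the signed exponents is not zero, then the spectrum of the symmetric and of the
antisymmetric tensor product is the closed unit disc.
-/

namespace Pool.Agent.Results.MP_0b6044_an.Disc

open Pool.Agent.SymShiftPublic

theorem result (n : ℕ) (χ : Equiv.Perm (Fin n) →* ℤˣ) (k : Fin n → ℤ) (hk : ∑ i, k i ≠ 0) :
    spec χ k = Metric.closedBall 0 1 :=
  (Pool.Agent.SymShift.pub_spec χ k).trans (Pool.Agent.SymShift.spectrum_disc χ k hk)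

end Pool.Agent.Results.MP_0b6044_an.Disc
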