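import Pool.Agent.SymShift.Transfer

/-!
# MP_0b6044_an: the norms

All symmetric and antisymmetric tensor products of powers of the shift and of its adjoint have
norm one.
-/

namespace Pool.Agent.Results.MP_0b6044_an.Norms

open Pool.Agent.SymShiftPublic

theorem result (n : ℕ) (χ : Equiv.Perm (Fin n) →* ℤˣ) (k : Fin n → ℤ) : ‖chiOp χ k‖ = 1 :=
  (Pool.Agent.SymShift.pub_norm χ k).trans (Pool.Agent.SymShift.norm_chiOp χ k)

end Pool.Agent.Results.MP_0b6044_an.Norms
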