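import Pool.Agent.SymShift.Transfer

/-!
# MP_0b6044_an: the spectrum and the range of the symbol

The spectrum contains the range of the symbol and is contained in its closed convex hull; if the
operator is selfadjoint (the exponents with reversed signs are a rearrangement of the exponents),
then the spectrum is the range of the symbol.
-/

namespace Pool.Agent.Results.MP_0b6044_an.ZeroSum

open Pool.Agent.SymShiftPublic

theorem result (n : ℕ) (χ : Equiv.Perm (Fin n) →* ℤˣ) (k : Fin n → ℤ) :
    symbolRange k ⊆ spec χ k ∧ spec χ k ⊆ closedConvexHull ℝ (symbolRange k) ∧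
      ((∃ σ : Equiv.Perm (Fin n), ∀ i, k (σ i) = - k i) → spec χ k = symbolRange k) := by
  rw [Pool.Agent.SymShift.pub_spec, Pool.Agent.SymShift.pub_range]
  exact ⟨Pool.Agent.SymShift.range_subset χ k, Pool.Agent.SymShift.spectrum_subset χ k,
    fun ⟨_, hσ⟩ => Pool.Agent.SymShift.spectrum_selfadjoint χ k hσ⟩

end Pool.Agent.Results.MP_0b6044_an.ZeroSum
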